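import Pool.Agent.helper88.RQ2.Spec

set_option autoImplicit false

open Set Matroid RadonMin

namespace RadonQ2

lemma VS_sub (hEB : EB_stmt) {V : Type} [AddCommGroup V] [Module ℝ V] [DecidableEq V]
    (X A B : Finset V) (hA : A ⊆ X) (hB : B ⊆ X) :
    ra (A ∩ B) + ra (A ∪ B) ≤ ra A + ra B := by
  obtain ⟨h1, -⟩ := hEB V
  have h := rk_submod (affMat X) (A : Set V) (B : Set V)
  rw [← Finset.coe_inter, ← Finset.coe_union, h1 _ X (Finset.inter_subset_left.trans hA),
    h1 _ X (Finset.union_subset hA hB), h1 _ X hA, h1 _ X hB] at h
  exact h

lemma VS_circ (hEB : EB_stmt) {V : Type} [AddCommGroup V] [Module ℝ V] [DecidableEq V]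
    (X c : Finset V) (hc : (affMat X).IsCircuit (c : Set V)) :
    c ⊆ X ∧ 3 ≤ c.card ∧ ra c + 1 = c.card ∧ ∀ e ∈ c, ra (c.erase e) + 1 = c.card := by
  obtain ⟨h1, -⟩ := hEB V
  have hcX : c ⊆ X := by
    have := hc.subset_ground
    rw [affMat_E] at this
    exact_mod_cast this
  refine ⟨hcX, ?_, ?_, ?_⟩
  · have := affMat_simp X _ hc
    rwa [ncard_coe_finset] at this
  · have := rk_circuit hc
    rwa [ncard_coe_finset, h1 _ X hcX] at this
  · intro e he
    have hi := hc.sdiff_singleton_indep (Finset.mem_coe.2 he)
    have h2 := rk_indep hi
    rw [← Finset.coe_erase, ncard_coe_finset, h1 _ X ((Finset.erase_subset _ _).trans hcX)] at h2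
    rw [h2]
    exact Finset.card_erase_add_one he

theorem VS_proof (hGCO : GCO_stmt) (hEB : EB_stmt) : VS_stmt := by
  intro V _ _ _ X q hq hS
  obtain ⟨L, p, y, z, hXc, hLc, hX, hLcol, hp, hcol, hncol⟩ := hS
  obtain ⟨hB1, hBm, hBs, hBc, hB0, hBp, hB2⟩ := hEB V
  have hX' : X = L ∪ {y, z} := by
    ext v
    have := Set.ext_iff.1 hX v
    simpa using this
  have hyz : y ≠ z := by
    rintro rfl
    have h1 : X.card ≤ L.card + ({y, y} : Finset V).card := by
      rw [hX']; exact Finset.card_union_le _ _
    have h2 : ({y, y} : Finset V).card = 1 := by simp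
    omega
  have hyL : y ∉ L := by
    intro h
    have h0 : X = insert z L := by
      rw [hX']
      ext v
      simp only [Finset.mem_union, Finset.mem_insert, Finset.mem_singleton]
      constructor
      · rintro (h' | rfl | rfl)
        · exact Or.inr h'
        · exact Or.inr h
        · exact Or.inl rfl
      · rintro (rfl | h')
        · exact Or.inr (Or.inr rfl)
        · exact Or.inl h'
    have h1 : X.card ≤ L.card + 1 := by
      rw [h0]; exact Finset.card_insert_le _ _
    omega
  have hzL : z ∉ L := by
    intro h
    have h0 : X = insert y L := by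
      rw [hX']
      ext v
      simp only [Finset.mem_union, Finset.mem_insert, Finset.mem_singleton]
      constructor
      · rintro (h' | rfl | rfl)
        · exact Or.inr h'
        · exact Or.inl rfl
        · exact Or.inr h
      · rintro (rfl | h')
        · exact Or.inr (Or.inl rfl)
        · exact Or.inl h'
    have h1 : X.card ≤ L.card + 1 := by
      rw [h0]; exact Finset.card_insert_le _ _
    omega
  have hLX : L ⊆ X := by rw [hX']; exact Finset.subset_union_left
  have hyX : y ∈ X := by rw [hX']; simp
  have hzX : z ∈ X := by rw [hX']; simp
  have hpX : p ∈ X := hLX hp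
  have hpy : p ≠ y := fun h => hyL (h ▸ hp)
  have hpz : p ≠ z := fun h => hzL (h ▸ hp)
  have hraL : ra L ≤ 2 := (hGCO V L).2 hLcol
  have hraT : ra ({p, y, z} : Finset V) ≤ 2 := by
    refine (hGCO V _).2 ?_
    have h0 : ((({p, y, z} : Finset V) : Finset V) : Set V) = ({p, y, z} : Set V) := by
      simp
    rw [h0]
    exact hcol
  have hTX : ({p, y, z} : Finset V) ⊆ X := by
    intro v hv
    simp only [Finset.mem_insert, Finset.mem_singleton] at hv
    rcases hv with rfl | rfl | rfl
    · exact hpX
    · exact hyX
    · exact hzX
  have hX3 : 3 ≤ ra X := by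
    by_contra h
    exact hncol ((hGCO V X).1 (by omega))
  have hXle : ra X ≤ 3 := by
    have h1 := VS_sub hEB X L {p, y, z} hLX hTX
    have h2 : 1 ≤ ra (L ∩ {p, y, z}) := by
      apply hBp
      exact ⟨p, by simp [hp]⟩
    have h3 : ra X ≤ ra (L ∪ {p, y, z}) := by
      apply hBm
      intro v hv
      rw [hX'] at hv
      simp only [Finset.mem_union, Finset.mem_insert, Finset.mem_singleton] at hv ⊢
      tauto
    omega
  -- two rank arguments
  have key1 : ∀ w w' : V, w ≠ w' → w ∉ L → p ≠ w → w ∈ X → w' ∈ X →
      (∀ v ∈ X, v ∈ L ∨ v = w ∨ v = w') →
      ra ({p, w, w'} : Finset V) ≤ 2 → ∀ c : Finset V, (affMat X).IsCircuit (c : Set V) →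
      w ∈ c → w' ∉ c → False := by
    intro w w' hww hwL hpw hwX hw'X hcov hT c hc hwc hw'c
    obtain ⟨hcX, hc3, hc1, hce⟩ := VS_circ hEB X c hc
    have h1 := VS_sub hEB X L c hLX hcX
    have h2 : L ∩ c = c.erase w := by
      ext v
      simp only [Finset.mem_inter, Finset.mem_erase]
      constructor
      · rintro ⟨hv, hvc⟩
        exact ⟨fun h => hwL (h ▸ hv), hvc⟩
      · rintro ⟨hv, hvc⟩
        rcases hcov v (hcX hvc) with h | h | h
        · exact ⟨h, hvc⟩
        · exact absurd h hv
        · exact absurd (h ▸ hvc) hw'c
    have h3 := hce w hwc
    rw [h2] at h1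
    have h4 : ra (insert w L) ≤ 2 := by
      have h5 : ra (insert w L) ≤ ra (L ∪ c) := by
        apply hBm
        intro v hv
        rw [Finset.mem_insert] at hv
        rw [Finset.mem_union]
        rcases hv with rfl | hv
        · exact Or.inr hwc
        · exact Or.inl hv
      omega
    have hTX' : ({p, w, w'} : Finset V) ⊆ X := by
      intro v hv
      simp only [Finset.mem_insert, Finset.mem_singleton] at hv
      rcases hv with rfl | rfl | rfl
      · exact hpX
      · exact hwX
      · exact hw'X
    have h6 := VS_sub hEB X (insert w L) {p, w, w'} (Finset.insert_subset hwX hLX) hTX'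
    have h7 : 2 ≤ ra (insert w L ∩ {p, w, w'}) := by
      apply hB2
      have h8 : ({p, w} : Finset V) ⊆ insert w L ∩ {p, w, w'} := by
        intro v hv
        simp only [Finset.mem_insert, Finset.mem_singleton] at hv
        rcases hv with rfl | rfl
        · simp [hp]
        · simp
      have h9 := Finset.card_le_card h8
      rw [Finset.card_pair hpw] at h9
      exact h9
    have h10 : ra X ≤ ra (insert w L ∪ {p, w, w'}) := by
      apply hBm
      intro v hv
      simp only [Finset.mem_union, Finset.mem_insert, Finset.mem_singleton]
      rcases hcov v hv with h | h | h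
      · exact Or.inl (Or.inr h)
      · exact Or.inl (Or.inl h)
      · exact Or.inr (Or.inr (Or.inr h))
    omega
  have hcov1 : ∀ v ∈ X, v ∈ L ∨ v = y ∨ v = z := by
    intro v hv
    rw [hX'] at hv
    simp only [Finset.mem_union, Finset.mem_insert, Finset.mem_singleton] at hv
    exact hv
  have hcov2 : ∀ v ∈ X, v ∈ L ∨ v = z ∨ v = y := by
    intro v hv
    have := hcov1 v hv
    tauto
  have hTs : ({p, z, y} : Finset V) = {p, y, z} := by
    ext v; simp only [Finset.mem_insert, Finset.mem_singleton]; tauto
  refine ⟨le_antisymm hXle hX3, ?_⟩
  set S1 : Finset (Finset V) := L.powersetCard 3 with hS1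
  set S3 : Finset (Finset V) := ((L.erase p).powersetCard 2).image
    (fun s => insert y (insert z s)) with hS3
  have hsub : {C : Set V | (affMat X).IsCircuit C} ⊆
      (fun c : Finset V => (c : Set V)) '' ((S1 ∪ {({p, y, z} : Finset V)} ∪ S3 :
        Finset (Finset V)) : Set (Finset V)) := by
    intro C hC
    have hC' : (affMat X).IsCircuit C := hC
    have hCX := hC'.subset_ground
    rw [affMat_E] at hCX
    have hfin : C.Finite := (Finset.finite_toSet X).subset hCX
    obtain ⟨c, rfl⟩ : ∃ c : Finset V, (c : Set V) = C := ⟨hfin.toFinset, by simp⟩
    obtain ⟨hcX, hc3, hc1, hce⟩ := VS_circ hEB X c hC'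
    refine ⟨c, ?_, rfl⟩
    rw [Finset.mem_coe, Finset.mem_union, Finset.mem_union, Finset.mem_singleton]
    have hc4 : c.card ≤ 4 := by
      have := hBm c X hcX
      omega
    by_cases hyc : y ∈ c
    · by_cases hzc : z ∈ c
      · by_cases hpc : p ∈ c
        · -- c = {p,y,z}
          left; right
          have hTc : ({p, y, z} : Finset V) ⊆ c := by
            intro v hv
            simp only [Finset.mem_insert, Finset.mem_singleton] at hv
            rcases hv with rfl | rfl | rfl
            · exact hpc
            · exact hyc
            · exact hzc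
          have hTcard : ({p, y, z} : Finset V).card = 3 := by
            rw [Finset.card_insert_of_notMem, Finset.card_pair hyz]
            simp only [Finset.mem_insert, Finset.mem_singleton]
            tauto
          by_contra hne
          have hss : ({p, y, z} : Finset V) ⊂ c := by
            refine Finset.ssubset_iff_subset_ne.2 ⟨hTc, fun h => hne h.symm⟩
          obtain ⟨e, hec, heT⟩ := Finset.exists_of_ssubset hss
          have hi := hC'.sdiff_singleton_indep (Finset.mem_coe.2 hec)
          have hiT : (affMat X).Indep ((({p, y, z} : Finset V)) : Set V) := by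
            refine hi.subset ?_
            intro v hv
            refine ⟨hTc (Finset.mem_coe.1 hv), ?_⟩
            rintro rfl
            exact heT (Finset.mem_coe.1 hv)
          have h2 := rk_indep hiT
          rw [ncard_coe_finset, hB1 _ X hTX, hTcard] at h2
          omega
        · right
          -- |c ∩ L| = 2
          have hsplit : c = insert y (insert z (c.erase z |>.erase y)) := by
            ext v
            simp only [Finset.mem_insert, Finset.mem_erase]
            constructor
            · intro hv
              by_cases h1 : v = y
              · exact Or.inl h1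
              · by_cases h2 : v = z
                · exact Or.inr (Or.inl h2)
                · exact Or.inr (Or.inr ⟨h1, h2, hv⟩)
            · rintro (rfl | rfl | ⟨-, -, h⟩)
              · exact hyc
              · exact hzc
              · exact h
          have hsL : (c.erase z).erase y ⊆ L.erase p := by
            intro v hv
            simp only [Finset.mem_erase] at hv
            rw [Finset.mem_erase]
            refine ⟨fun h => hpc (h ▸ hv.2.2), ?_⟩
            rcases hcov1 v (hcX hv.2.2) with h | h | h
            · exact h
            · exact absurd h hv.1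
            · exact absurd h hv.2.1
          have hcard : ((c.erase z).erase y).card + 2 = c.card := by
            have h1 := Finset.card_erase_add_one hzc
            have h2 := Finset.card_erase_add_one (Finset.mem_erase.2 ⟨hyz, hyc⟩ : y ∈ c.erase z)
            omega
          have hne1 : ((c.erase z).erase y).card ≠ 1 := by
            intro h1
            obtain ⟨a, ha⟩ := Finset.card_eq_one.1 h1
            have haL : a ∈ L.erase p := hsL (by rw [ha]; simp)
            rw [Finset.mem_erase] at haL
            have hcc : c = {y, z, a} := by
              rw [hsplit, ha]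
            have hrac : ra c = 2 := by omega
            -- c ∪ {p,y,z}
            have h2 := VS_sub hEB X c {p, y, z} hcX hTX
            have h3 : 2 ≤ ra (c ∩ {p, y, z}) := by
              apply hB2
              have h8 : ({y, z} : Finset V) ⊆ c ∩ {p, y, z} := by
                intro v hv
                simp only [Finset.mem_insert, Finset.mem_singleton] at hv
                rcases hv with rfl | rfl
                · simp [hyc]
                · simp [hzc]
              have h9 := Finset.card_le_card h8
              rw [Finset.card_pair hyz] at h9
              exact h9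
            have h4 : ra (c ∪ {p, y, z}) ≤ 2 := by omega
            have h5 := VS_sub hEB X L (c ∪ {p, y, z}) hLX (Finset.union_subset hcX hTX)
            have h6 : 2 ≤ ra (L ∩ (c ∪ {p, y, z})) := by
              apply hB2
              have h8 : ({a, p} : Finset V) ⊆ L ∩ (c ∪ {p, y, z}) := by
                intro v hv
                simp only [Finset.mem_insert, Finset.mem_singleton] at hv
                rcases hv with rfl | rfl
                · rw [Finset.mem_inter, Finset.mem_union]
                  refine ⟨haL.2, Or.inl ?_⟩
                  rw [hcc]; simp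
                · simp [hp]
              have h9 := Finset.card_le_card h8
              rw [Finset.card_pair haL.1] at h9
              exact h9
            have h7 : ra X ≤ ra (L ∪ (c ∪ {p, y, z})) := by
              apply hBm
              intro v hv
              simp only [Finset.mem_union, Finset.mem_insert, Finset.mem_singleton]
              rcases hcov1 v hv with h | h | h
              · exact Or.inl h
              · exact Or.inr (Or.inr (Or.inr (Or.inl h)))
              · exact Or.inr (Or.inr (Or.inr (Or.inr h)))
            omega
          rw [hS3, Finset.mem_image]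
          refine ⟨(c.erase z).erase y, ?_, hsplit.symm⟩
          rw [Finset.mem_powersetCard]
          exact ⟨hsL, by omega⟩
      · exact absurd (key1 y z hyz hyL hpy hyX hzX hcov1 hraT c hC' hyc hzc) id
    · by_cases hzc : z ∈ c
      · exact absurd (key1 z y hyz.symm hzL hpz hzX hyX hcov2 (by rw [hTs]; exact hraT) c hC'
          hzc hyc) id
      · left; left
        have hcL : c ⊆ L := by
          intro v hv
          rcases hcov1 v (hcX hv) with h | h | h
          · exact h
          · exact absurd (h ▸ hv) hyc
          · exact absurd (h ▸ hv) hzc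
        have h1 := hBm c L hcL
        rw [hS1, Finset.mem_powersetCard]
        exact ⟨hcL, by omega⟩
  have hci : ci X ≤ (S1 ∪ {({p, y, z} : Finset V)} ∪ S3).card := by
    unfold ci cc
    refine (Set.ncard_le_ncard hsub (Set.toFinite _)).trans ?_
    refine (Set.ncard_image_le (Finset.finite_toSet _)).trans ?_
    rw [ncard_coe_finset]
  have hc1 : S1.card = q.choose 3 := by rw [hS1, Finset.card_powersetCard, hLc]
  have hc3 : S3.card ≤ (q - 1).choose 2 := by
    rw [hS3]
    refine Finset.card_image_le.trans ?_
    rw [Finset.card_powersetCard, Finset.card_erase_of_mem hp, hLc]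
  have h1 := Finset.card_union_le (S1 ∪ {({p, y, z} : Finset V)}) S3
  have h2 := Finset.card_union_le S1 {({p, y, z} : Finset V)}
  rw [Finset.card_singleton] at h2
  omega

end RadonQ2
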